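import Pool.Agent.Work.MP_b5407d_pos_helper13.Blocks
import Pool.Agent.Work.MP_b5407d_lbm_helper35.PathBasics

/-! # MP_b5407d_gt (POS), blocks REM and REM0 (helper19) -/

set_option autoImplicit false

open MeasureTheory Set Filter Topology

namespace Pool.Agent.Work.MP_b5407d_pos_h19

open Pool.LBM Pool.LBM.Path Pool.Agent.Work.MP_b5407d_pos_h13

/-- reparametrisation data: `pl c` maps the edge `j` into the edge `J j` -/
structure Rep (c : ℕ → ℝ) (J : ℕ → ℕ) : Prop where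
  c0 : c 0 = 0
  lo : ∀ j, (J j : ℝ) ≤ c j
  mono : ∀ j, c j ≤ c (j + 1)
  hi : ∀ j, c (j + 1) ≤ J j + 1

/-- `a` is the reparametrisation of `a'` -/
structure Com (c : ℕ → ℝ) (J : ℕ → ℕ) (a a' : ℕ → ℝ) : Prop where
  z : a 0 = a' 0
  e : ∀ j, a (j + 1) - a j = (c (j + 1) - c j) * (a' (J j + 1) - a' (J j))

section
variable {c : ℕ → ℝ} {J : ℕ → ℕ} {a a' : ℕ → ℝ}

theorem plc_mem (hc : Rep c J) (j : ℕ) {t : ℝ} (h1 : (j : ℝ) ≤ t) (h2 : t ≤ j + 1) :
    c j ≤ pl c t ∧ pl c t ≤ c (j + 1) := by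
  rw [pl_aff c j h1 h2]
  have := hc.mono j
  constructor
  · nlinarith
  · nlinarith

theorem plc_nonneg (hc : Rep c J) {t : ℝ} (ht : 0 ≤ t) : 0 ≤ pl c t := by
  have h := plc_mem hc ⌊t⌋₊ (Nat.floor_le ht) (Nat.lt_floor_add_one t).le
  have h1 := hc.lo ⌊t⌋₊
  have h2 : (0 : ℝ) ≤ (J ⌊t⌋₊ : ℝ) := Nat.cast_nonneg _
  linarith

theorem com_nat (hc : Rep c J) (h : Com c J a a') (j : ℕ) : a j = pl a' (c j) := by
  induction j with
  | zero => rw [hc.c0, pl_zero, h.z]
  | succ j ih =>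
    have h1 := hc.lo j
    have h2 := hc.mono j
    have h3 := hc.hi j
    rw [pl_aff a' (J j) h1 (by linarith)] at ih
    rw [pl_aff a' (J j) (by linarith) h3]
    have := h.e j
    linear_combination this + ih

theorem com_pl (hc : Rep c J) (h : Com c J a a') {t : ℝ} (ht : 0 ≤ t) :
    pl a t = pl a' (pl c t) := by
  set j := ⌊t⌋₊
  have h1 : (j : ℝ) ≤ t := Nat.floor_le ht
  have h2 : t ≤ j + 1 := (Nat.lt_floor_add_one t).le
  have h3 := plc_mem hc j h1 h2
  have h4 := hc.lo j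
  have h5 := hc.hi j
  have h6 := com_nat hc h j
  have h7 := hc.mono j
  rw [pl_aff a' (J j) h4 (by linarith)] at h6
  rw [pl_aff a' (J j) (by linarith) (by linarith), pl_aff a j h1 h2, pl_aff c j h1 h2]
  have := h.e j
  linear_combination h6 + (t - j) * this

theorem dpl_edge (a : ℕ → ℝ) (j : ℕ) {t : ℝ} (h1 : (j : ℝ) ≤ t) (h2 : t < j + 1) :
    dpl a t = a (j + 1) - a j := by
  have hf : ⌊t⌋₊ = j := (Nat.floor_eq_iff (le_trans (Nat.cast_nonneg j) h1)).mpr ⟨h1, h2⟩
  unfold dpl; rw [hf]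

theorem ne_ae (x : ℝ) : ∀ᵐ t : ℝ, t ≠ x := by
  rw [ae_iff]; simp

theorem edge (hc : Rep c J) (h : Com c J a a') (F : ℝ → ℝ) (j : ℕ) {T : ℝ}
    (h1 : (j : ℝ) ≤ T) (h2 : T ≤ j + 1) :
    (∫ t in (j : ℝ)..T, F (pl c t) * dpl a t) = ∫ s in (c j)..(pl c T), F s * dpl a' s := by
  have h3 := plc_mem hc j h1 h2
  have h4 := hc.lo j
  have h5 := hc.hi j
  have e1 : (∫ t in (j : ℝ)..T, F (pl c t) * dpl a t) =
      ∫ t in (j : ℝ)..T, (a' (J j + 1) - a' (J j)) *
        ((c (j + 1) - c j) * F ((c (j + 1) - c j) * t + (c j - (c (j + 1) - c j) * j))) := by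
    refine intervalIntegral.integral_congr_ae ?_
    filter_upwards [ne_ae ((j : ℝ) + 1)] with t ht htI
    rw [uIoc_of_le h1] at htI
    have h6 : t < j + 1 := lt_of_le_of_ne (by linarith [htI.2]) ht
    rw [dpl_edge a j htI.1.le h6, h.e j, pl_aff c j htI.1.le h6.le]
    have e : c j + (t - j) * (c (j + 1) - c j) =
      (c (j + 1) - c j) * t + (c j - (c (j + 1) - c j) * j) := by ring
    rw [e]; ring
  have e2 : (∫ s in (c j)..(pl c T), F s * dpl a' s) =
      ∫ s in (c j)..(pl c T), (a' (J j + 1) - a' (J j)) * F s := by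
    refine intervalIntegral.integral_congr_ae ?_
    filter_upwards [ne_ae ((J j : ℝ) + 1)] with s hs hsI
    rw [uIoc_of_le h3.1] at hsI
    have h6 : s < J j + 1 := lt_of_le_of_ne (by linarith [hsI.2]) hs
    rw [dpl_edge a' (J j) (by linarith [hsI.1]) h6]
    ring
  rw [e1, e2, intervalIntegral.integral_const_mul, intervalIntegral.integral_const_mul,
    intervalIntegral.integral_const_mul, intervalIntegral.mul_integral_comp_mul_add]
  have e3 : (c (j + 1) - c j) * j + (c j - (c (j + 1) - c j) * j) = c j := by ring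
  have e4 : (c (j + 1) - c j) * T + (c j - (c (j + 1) - c j) * j) = pl c T := by
    rw [pl_aff c j h1 h2]; ring
  rw [e3, e4]

theorem sub_nat (hc : Rep c J) (h : Com c J a a') {F : ℝ → ℝ} (hF : Continuous F) (n : ℕ) :
    (∫ t in (0 : ℝ)..n, F (pl c t) * dpl a t) = ∫ s in (0 : ℝ)..(c n), F s * dpl a' s := by
  induction n with
  | zero => rw [hc.c0]; simp
  | succ n ih =>
    have hF' : Continuous (fun t => F (pl c t)) := hF.comp (cont_pl c)
    have e := edge hc h F n (T := (n : ℝ) + 1) (by linarith) le_rfl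
    have e' : pl c ((n : ℝ) + 1) = c (n + 1) := by
      have := pl_nat c (n + 1); push_cast at this; exact this
    rw [e'] at e
    push_cast
    rw [← intervalIntegral.integral_add_adjacent_intervals (mul_ii a hF' 0 n)
      (mul_ii a hF' n _), ← intervalIntegral.integral_add_adjacent_intervals (mul_ii a' hF 0 (c n))
      (mul_ii a' hF (c n) _), ih, e]

theorem sub_real (hc : Rep c J) (h : Com c J a a') {F : ℝ → ℝ} (hF : Continuous F) {T : ℝ}
    (hT : 0 ≤ T) :
    (∫ t in (0 : ℝ)..T, F (pl c t) * dpl a t) = ∫ s in (0 : ℝ)..(pl c T), F s * dpl a' s := by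
  have hF' : Continuous (fun t => F (pl c t)) := hF.comp (cont_pl c)
  have h1 : ((⌊T⌋₊ : ℕ) : ℝ) ≤ T := Nat.floor_le hT
  have h2 : T ≤ ⌊T⌋₊ + 1 := (Nat.lt_floor_add_one T).le
  have e := edge hc h F ⌊T⌋₊ h1 h2
  have s1 := intervalIntegral.integral_add_adjacent_intervals (mul_ii a hF' 0 ⌊T⌋₊)
      (mul_ii a hF' ⌊T⌋₊ T)
  have s2 := intervalIntegral.integral_add_adjacent_intervals (mul_ii a' hF 0 (c ⌊T⌋₊))
      (mul_ii a' hF (c ⌊T⌋₊) (pl c T))
  have s3 := sub_nat hc h hF ⌊T⌋₊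
  linarith

/-- the substitution with a function given on `t ≥ 0` -/
theorem sub_fun (hc : Rep c J) (h : Com c J a a') {F G : ℝ → ℝ} (hF : Continuous F)
    (hG : ∀ t, 0 ≤ t → G t = F (pl c t)) {T : ℝ} (hT : 0 ≤ T) :
    (∫ t in (0 : ℝ)..T, G t * dpl a t) = ∫ s in (0 : ℝ)..(pl c T), F s * dpl a' s := by
  rw [← sub_real hc h hF hT]
  refine intervalIntegral.integral_congr fun t ht => ?_
  rw [uIcc_of_le hT] at ht
  show G t * dpl a t = _
  rw [hG t ht.1]

end

/-- the indicator -/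
theorem ind_split (b : ℕ → ℝ) {f g : ℝ → ℝ} (hf : Continuous f) (hg : Continuous g) (K : ℝ)
    {ρ m : ℝ} (h0 : 0 ≤ ρ) (hm : ρ ≤ m) :
    (∫ t in (0 : ℝ)..m, (f t + if ρ ≤ t then K else 0) * g t * dpl b t) =
      (∫ t in (0 : ℝ)..m, f t * g t * dpl b t) + K * ∫ t in ρ..m, g t * dpl b t := by
  have hfg : Continuous (fun t => f t * g t) := hf.mul hg
  have i1 : ∀ x y, IntervalIntegrable (fun t => f t * g t * dpl b t) volume x y :=
    fun x y => mul_ii b hfg x y
  have i2 : ∀ x y, IntervalIntegrable (fun t => g t * dpl b t) volume x y :=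
    fun x y => mul_ii b hg x y
  have c1 : ∀ᵐ t : ℝ, t ∈ uIoc (0 : ℝ) ρ →
      (f t + if ρ ≤ t then K else 0) * g t * dpl b t = f t * g t * dpl b t := by
    filter_upwards [ne_ae ρ] with t ht htI
    rw [uIoc_of_le h0] at htI
    have : ¬ ρ ≤ t := fun h' => ht (le_antisymm htI.2 h')
    rw [if_neg this]; ring
  have c2 : ∀ᵐ t : ℝ, t ∈ uIoc ρ m →
      (f t + if ρ ≤ t then K else 0) * g t * dpl b t = f t * g t * dpl b t +
        K * (g t * dpl b t) := by
    filter_upwards with t htI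
    rw [uIoc_of_le hm] at htI
    rw [if_pos htI.1.le]; ring
  have j1 : IntervalIntegrable (fun t => (f t + if ρ ≤ t then K else 0) * g t * dpl b t)
      volume 0 ρ := by
    refine (i1 0 ρ).congr_ae ?_
    rw [Filter.EventuallyEq, ae_restrict_iff' measurableSet_uIoc]
    filter_upwards [c1] with t ht htI
    exact (ht htI).symm
  have j2 : IntervalIntegrable (fun t => (f t + if ρ ≤ t then K else 0) * g t * dpl b t)
      volume ρ m := by
    refine ((i1 ρ m).add ((i2 ρ m).const_mul K)).congr_ae ?_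
    rw [Filter.EventuallyEq, ae_restrict_iff' measurableSet_uIoc]
    filter_upwards [c2] with t ht htI
    exact (ht htI).symm
  rw [← intervalIntegral.integral_add_adjacent_intervals j1 j2,
    intervalIntegral.integral_congr_ae c1, intervalIntegral.integral_congr_ae c2,
    intervalIntegral.integral_add (i1 ρ m) ((i2 ρ m).const_mul K),
    intervalIntegral.integral_const_mul,
    ← intervalIntegral.integral_add_adjacent_intervals (i1 0 ρ) (i1 ρ m)]
  ring

theorem pN_split (v w : ℝ) (a b : ℕ → ℝ) {m r : ℕ} (h : r < m) :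
    pN v w a b m r = (∫ t in (0 : ℝ)..m, pL v w a b t * (pe v w a b t)⁻¹ * dpl b t) +
      pJ v w a b m * ∫ t in ((r : ℝ) + 1)..m, (pe v w a b t)⁻¹ * dpl b t := by
  have h1 : ((r : ℝ) + 1) ≤ m := by exact_mod_cast h
  rw [← ind_split b (f := pL v w a b) (g := fun t => (pe v w a b t)⁻¹) (pL_cont v w a b)
    ((pe_cont v w a b).inv₀ (pe_ne v w a b)) (pJ v w a b m)
    (by positivity) h1]
  unfold pN pR
  refine intervalIntegral.integral_congr fun t _ => ?_
  simp only [div_eq_mul_inv]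

theorem pM_split (v w : ℝ) (a b : ℕ → ℝ) {m r : ℕ} (h : r < m) :
    pM v w a b m r = (∫ t in (0 : ℝ)..m, pL v w a b t * (pX v w a b t * (pe v w a b t)⁻¹) *
      dpl b t) +
      pJ v w a b m * ∫ t in ((r : ℝ) + 1)..m, (pX v w a b t * (pe v w a b t)⁻¹) * dpl b t := by
  have h1 : ((r : ℝ) + 1) ≤ m := by exact_mod_cast h
  rw [← ind_split b (f := pL v w a b) (g := fun t => pX v w a b t * (pe v w a b t)⁻¹)
    (pL_cont v w a b) ((pX_cont v w a b).mul ((pe_cont v w a b).inv₀ (pe_ne v w a b)))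
    (pJ v w a b m) (by positivity) h1]
  unfold pM pR
  refine intervalIntegral.integral_congr fun t _ => ?_
  simp only [div_eq_mul_inv]
  ring

section
variable {c : ℕ → ℝ} {J : ℕ → ℕ} {a a' b b' : ℕ → ℝ}

theorem rep_pe (hc : Rep c J) (ha : Com c J a a') (hb : Com c J b b') (v w : ℝ) {t : ℝ}
    (ht : 0 ≤ t) : pe v w a b t = pe v w a' b' (pl c t) := by
  unfold pe; rw [com_pl hc ha ht, com_pl hc hb ht]

theorem rep_pX (hc : Rep c J) (ha : Com c J a a') (hb : Com c J b b') (v w : ℝ) {t : ℝ}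
    (ht : 0 ≤ t) : pX v w a b t = pX v w a' b' (pl c t) :=
  sub_fun hc ha (pe_cont v w a' b') (fun _ hs => rep_pe hc ha hb v w hs) ht

theorem rep_pL (hc : Rep c J) (ha : Com c J a a') (hb : Com c J b b') (v w : ℝ) {t : ℝ}
    (ht : 0 ≤ t) : pL v w a b t = pL v w a' b' (pl c t) := by
  refine sub_fun hc ha (pq_cont v w a' b') (fun s hs => ?_) ht
  unfold pq; rw [com_pl hc ha hs, com_pl hc hb hs]

theorem rep_all (hc : Rep c J) (ha : Com c J a a') (hb : Com c J b b') (v w : ℝ) {m m' r r' : ℕ}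
    (hm : c m = m') (hr : c (r + 1) = (r' : ℝ) + 1) (h1 : r < m) (h2 : r' < m') :
    pd v w a b m = pd v w a' b' m' ∧ pP v w a b m = pP v w a' b' m' ∧
    pN v w a b m r = pN v w a' b' m' r' ∧ pM v w a b m r = pM v w a' b' m' r' := by
  have hm0 : (0 : ℝ) ≤ m := Nat.cast_nonneg m
  have hr0 : (0 : ℝ) ≤ (r : ℝ) + 1 := by positivity
  have em : pl c m = m' := by rw [pl_nat, hm]
  have er : pl c ((r : ℝ) + 1) = (r' : ℝ) + 1 := by
    have := pl_nat c (r + 1); push_cast at this; rw [this, hr]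
  have hpe : ∀ t, 0 ≤ t → pe v w a b t = pe v w a' b' (pl c t) :=
    fun t ht => rep_pe hc ha hb v w ht
  have hpX : ∀ t, 0 ≤ t → pX v w a b t = pX v w a' b' (pl c t) :=
    fun t ht => rep_pX hc ha hb v w ht
  have hpL : ∀ t, 0 ≤ t → pL v w a b t = pL v w a' b' (pl c t) :=
    fun t ht => rep_pL hc ha hb v w ht
  have hJ : pJ v w a b m = pJ v w a' b' m' := by
    unfold pJ; rw [hpL _ hm0, em]
  have ce := (pe_cont v w a' b').inv₀ (pe_ne v w a' b')
  have key : ∀ {F G : ℝ → ℝ}, Continuous F → Continuous G → (∀ t, 0 ≤ t → G t = F (pl c t)) →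
      (∫ t in ((r : ℝ) + 1)..m, G t * dpl b t) =
        ∫ s in ((r' : ℝ) + 1)..m', F s * dpl b' s := by
    intro F G hF hG hGF
    have e1 := sub_fun hc hb hF hGF hm0
    have e2 := sub_fun hc hb hF hGF hr0
    rw [em] at e1
    rw [er] at e2
    have s1 := intervalIntegral.integral_add_adjacent_intervals
      (mul_ii b hG 0 ((r : ℝ) + 1)) (mul_ii b hG ((r : ℝ) + 1) m)
    have s2 := intervalIntegral.integral_add_adjacent_intervals
      (mul_ii b' hF 0 ((r' : ℝ) + 1)) (mul_ii b' hF ((r' : ℝ) + 1) m')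
    linarith
  refine ⟨?_, ?_, ?_, ?_⟩
  · unfold pd
    rw [← em]
    refine sub_fun hc hb (F := fun s => mE v (pl a' s) / pe v w a' b' s)
      (pG_cont v w a' b') (fun t ht => ?_) hm0
    rw [com_pl hc ha ht, hpe t ht]
  · unfold pP
    rw [← em]
    refine sub_fun hc hb (F := fun s => pX v w a' b' s * mE v (pl a' s) / pe v w a' b' s)
      ?_ (fun t ht => ?_) hm0
    · exact ((pX_cont v w a' b').mul ((mE_cont v).comp (cont_pl a'))).div
        (pe_cont v w a' b') (pe_ne v w a' b')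
    · rw [com_pl hc ha ht, hpe t ht, hpX t ht]
  · rw [pN_split v w a b h1, pN_split v w a' b' h2, hJ]
    have k1 := sub_fun hc hb (F := fun s => pL v w a' b' s * (pe v w a' b' s)⁻¹)
      ((pL_cont v w a' b').mul ce) (G := fun t => pL v w a b t * (pe v w a b t)⁻¹)
      (fun t ht => by rw [hpe t ht, hpL t ht]) hm0
    have k2 := key (F := fun s => (pe v w a' b' s)⁻¹) (G := fun t => (pe v w a b t)⁻¹) ce
      ((pe_cont v w a b).inv₀ (pe_ne v w a b)) (fun t ht => by rw [hpe t ht])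
    rw [em] at k1
    rw [k1, k2]
  · rw [pM_split v w a b h1, pM_split v w a' b' h2, hJ]
    have k1 := sub_fun hc hb
      (F := fun s => pL v w a' b' s * (pX v w a' b' s * (pe v w a' b' s)⁻¹))
      ((pL_cont v w a' b').mul ((pX_cont v w a' b').mul ce))
      (G := fun t => pL v w a b t * (pX v w a b t * (pe v w a b t)⁻¹))
      (fun t ht => by rw [hpe t ht, hpL t ht, hpX t ht]) hm0
    have k2 := key (F := fun s => pX v w a' b' s * (pe v w a' b' s)⁻¹)
      (G := fun t => pX v w a b t * (pe v w a b t)⁻¹) ((pX_cont v w a' b').mul ce)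
      ((pX_cont v w a b).mul ((pe_cont v w a b).inv₀ (pe_ne v w a b)))
      (fun t ht => by rw [hpe t ht, hpX t ht])
    rw [em] at k1
    rw [k1, k2]

end

/-- reparametrisation for `REM` -/
noncomputable def cR (k : ℕ) (θ : ℝ) : ℕ → ℝ := fun j =>
  if j ≤ k then j else if j = k + 1 then k + θ else j - 1

/-- target edge -/
def JR (k : ℕ) : ℕ → ℕ := fun j => if j ≤ k then j else j - 1

theorem rep_R (k : ℕ) {θ : ℝ} (h0 : 0 ≤ θ) (h1 : θ ≤ 1) : Rep (cR k θ) (JR k) := by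
  refine ⟨by simp [cR], fun j => ?_, fun j => ?_, fun j => ?_⟩
  · rcases lt_trichotomy j (k + 1) with h | h | h
    · simp [cR, JR, show j ≤ k by omega]
    · subst h
      simp [cR, JR, h0]
    · have e : ((j - 1 : ℕ) : ℝ) = (j : ℝ) - 1 := by
        rw [Nat.cast_sub (by omega)]; simp
      simp [cR, JR, show ¬ j ≤ k by omega, show j ≠ k + 1 by omega, e]
  · rcases lt_trichotomy j k with h | h | h
    · simp [cR, show j ≤ k by omega, show j + 1 ≤ k by omega]
    · subst h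
      simp [cR, h0]
    · rcases Nat.lt_or_ge (k + 1) j with h' | h'
      · simp [cR, show ¬ j ≤ k by omega, show j ≠ k + 1 by omega, show ¬ j + 1 ≤ k by omega,
          show j ≠ k by omega]
      · have : j = k + 1 := by omega
        subst this
        simp [cR, h1]
  · rcases lt_trichotomy j k with h | h | h
    · simp [cR, JR, show j ≤ k by omega, show j + 1 ≤ k by omega]
    · subst h
      simp [cR, JR, h1]
    · have e : ((j - 1 : ℕ) : ℝ) = (j : ℝ) - 1 := by
        rw [Nat.cast_sub (by omega)]; simp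
      simp [cR, JR, show ¬ j ≤ k by omega, show ¬ j + 1 ≤ k by omega, show j ≠ k by omega, e]

theorem com_R (k : ℕ) (θ : ℝ) (a : ℕ → ℝ) (h : a (k + 1) = (1 - θ) * a k + θ * a (k + 2)) :
    Com (cR k θ) (JR k) a (rem (k + 1) a) := by
  refine ⟨by simp [rem], fun j => ?_⟩
  rcases lt_trichotomy j k with h' | h' | h'
  · simp [cR, JR, rem, show j ≤ k by omega, show j + 1 ≤ k by omega, show j < k + 1 by omega]
  · subst h'
    simp [cR, JR, rem, h]
    ring
  · rcases Nat.lt_or_ge (k + 1) j with h2 | h2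
    · have e : j - 1 + 1 = j := by omega
      simp [cR, JR, rem, show ¬ j ≤ k by omega, show j ≠ k + 1 by omega,
        show ¬ j + 1 ≤ k by omega, show j ≠ k by omega, show ¬ j - 1 < k + 1 by omega, e,
        show ¬ j < k + 1 by omega]
    · have : j = k + 1 := by omega
      subst this
      simp [cR, JR, rem, h]
      ring

theorem stmt_REM : Stmt_REM := by
  intro m r k a b v w θ hkr hrm h0 h1 ha hb
  refine rep_all (rep_R k h0 h1) (com_R k θ a ha) (com_R k θ b hb) v w (m := m + 1) (m' := m)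
    (r := r + 1) (r' := r) ?_ ?_ (by omega) hrm
  · simp [cR, show ¬ m + 1 ≤ k by omega, show m ≠ k by omega]
  · simp only [cR, show ¬ r + 1 + 1 ≤ k by omega, show r + 1 + 1 ≠ k + 1 by omega, if_false]
    push_cast
    ring

/-! ## REM0 -/

section
variable {a b : ℕ → ℝ}

theorem floor_sub_one' {t : ℝ} (ht : 1 ≤ t) : ⌊t - 1⌋₊ + 1 = ⌊t⌋₊ := by
  have h1 : 1 ≤ ⌊t⌋₊ := by
    rw [Nat.le_floor_iff (by linarith)]; simpa using ht
  rw [Nat.floor_sub_one]; omega

theorem sh_pl (a : ℕ → ℝ) {t : ℝ} (ht : 1 ≤ t) : pl (rem 0 a) (t - 1) = pl a t := by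
  have h := floor_sub_one' ht
  have h' : ((⌊t - 1⌋₊ : ℕ) : ℝ) + 1 = (⌊t⌋₊ : ℝ) := by exact_mod_cast h
  simp only [pl, rem, Nat.not_lt_zero, if_false]
  rw [h, ← h']
  have e : t - 1 - (⌊t - 1⌋₊ : ℝ) = t - ((⌊t - 1⌋₊ : ℝ) + 1) := by ring
  rw [e]

theorem sh_dpl (a : ℕ → ℝ) {t : ℝ} (ht : 1 ≤ t) : dpl (rem 0 a) (t - 1) = dpl a t := by
  have h := floor_sub_one' ht
  simp only [dpl, rem, Nat.not_lt_zero, if_false]
  rw [h]

theorem sh_int (b : ℕ → ℝ) {F G : ℝ → ℝ} (h : ∀ t, 1 ≤ t → G t = F (t - 1)) {x y : ℝ}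
    (hx : 1 ≤ x) (hy : x ≤ y) :
    (∫ t in x..y, G t * dpl b t) = ∫ s in (x - 1)..(y - 1), F s * dpl (rem 0 b) s := by
  rw [← intervalIntegral.integral_comp_sub_right (fun s => F s * dpl (rem 0 b) s) 1]
  refine intervalIntegral.integral_congr fun t ht => ?_
  rw [uIcc_of_le hy] at ht
  show G t * dpl b t = F (t - 1) * dpl (rem 0 b) (t - 1)
  rw [h t (by linarith [ht.1]), sh_dpl b (by linarith [ht.1])]

theorem first0 (b : ℕ → ℝ) {G : ℝ → ℝ} (h : ∀ t, 0 ≤ t → t ≤ 1 → G t = 0) {T : ℝ}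
    (hT0 : 0 ≤ T) (hT : T ≤ 1) :
    (∫ t in (0 : ℝ)..T, G t * dpl b t) = 0 := by
  have : (∫ t in (0 : ℝ)..T, G t * dpl b t) = ∫ t in (0 : ℝ)..T, (0 : ℝ) := by
    refine intervalIntegral.integral_congr fun t ht => ?_
    rw [uIcc_of_le hT0] at ht
    show G t * dpl b t = 0
    rw [h t ht.1 (by linarith [ht.2]), zero_mul]
  rw [this]; simp

theorem first1 (a : ℕ → ℝ) (G : ℝ → ℝ) (h0 : a 0 = 0) (h1 : a 1 = 0) {T : ℝ}
    (hT0 : 0 ≤ T) (hT : T ≤ 1) :
    (∫ t in (0 : ℝ)..T, G t * dpl a t) = 0 := by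
  have : (∫ t in (0 : ℝ)..T, G t * dpl a t) = ∫ t in (0 : ℝ)..T, (0 : ℝ) := by
    refine intervalIntegral.integral_congr_ae ?_
    filter_upwards [ne_ae 1] with t ht htI
    rw [uIoc_of_le hT0] at htI
    have h2 : t < ((0 : ℕ) : ℝ) + 1 := by
      have := lt_of_le_of_ne (by linarith [htI.2]) ht
      simpa using this
    rw [dpl_edge a 0 (by simpa using htI.1.le) h2]
    simp [h0, h1]
  rw [this]; simp

theorem pl_first (h0 : a 0 = 0) (h1 : a 1 = 0) {t : ℝ} (ht : t ≤ 1) : pl a t = 0 := by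
  rw [pl_aff0 a ht, h0, h1]; ring

/-- integrals which vanish on the first edge -/
theorem sh_tot (b : ℕ → ℝ) {F G : ℝ → ℝ} (hG : Continuous G)
    (h : ∀ t, 1 ≤ t → G t = F (t - 1))
    (hz : (∫ t in (0 : ℝ)..1, G t * dpl b t) = 0) {x : ℝ} (hx : 1 ≤ x) :
    (∫ t in (0 : ℝ)..x, G t * dpl b t) = ∫ s in (0 : ℝ)..(x - 1), F s * dpl (rem 0 b) s := by
  rw [← intervalIntegral.integral_add_adjacent_intervals (mul_ii b hG 0 1) (mul_ii b hG 1 x),
    hz, zero_add, sh_int b h le_rfl hx, sub_self]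

theorem stmt_REM0 : Stmt_REM0 := by
  intro m r a b v w hrm h0 h1
  set a' := rem 0 a with ha'
  set b' := rem 0 b with hb'
  have hm1 : (1 : ℝ) ≤ ((m + 1 : ℕ) : ℝ) := by
    push_cast; linarith [(Nat.cast_nonneg m : (0 : ℝ) ≤ m)]
  have em : ((m + 1 : ℕ) : ℝ) - 1 = m := by push_cast; ring
  have hpl : ∀ t, t ≤ 1 → pl a t = 0 := fun t ht => pl_first h0 h1 ht
  have hpe : ∀ t, 1 ≤ t → pe v w a b t = pe v w a' b' (t - 1) := by
    intro t ht; unfold pe; rw [ha', hb', sh_pl a ht, sh_pl b ht]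
  have hX0 : ∀ t, 0 ≤ t → t ≤ 1 → pX v w a b t = 0 := fun t h2 h3 => first1 a _ h0 h1 h2 h3
  have hL0 : ∀ t, 0 ≤ t → t ≤ 1 → pL v w a b t = 0 := fun t h2 h3 => first1 a _ h0 h1 h2 h3
  have hX : ∀ t, 1 ≤ t → pX v w a b t = pX v w a' b' (t - 1) := fun t ht =>
    sh_tot a (pe_cont v w a b) hpe (hX0 1 zero_le_one le_rfl) ht
  have hL : ∀ t, 1 ≤ t → pL v w a b t = pL v w a' b' (t - 1) := fun t ht =>
    sh_tot a (pq_cont v w a b) (fun s hs => by
      unfold pq; rw [ha', hb', sh_pl a hs, sh_pl b hs]) (hL0 1 zero_le_one le_rfl) ht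
  have hJ : pJ v w a b (m + 1) = pJ v w a' b' m := by
    unfold pJ; rw [hL _ hm1, em]
  have hr1 : (1 : ℝ) ≤ ((r + 1 : ℕ) : ℝ) + 1 := by
    push_cast; linarith [(Nat.cast_nonneg r : (0 : ℝ) ≤ r)]
  have hr2 : ((r + 1 : ℕ) : ℝ) + 1 ≤ ((m + 1 : ℕ) : ℝ) := by
    have : (r : ℝ) + 1 ≤ m := by exact_mod_cast hrm
    push_cast; linarith
  have er : ((r + 1 : ℕ) : ℝ) + 1 - 1 = (r : ℝ) + 1 := by push_cast; ring
  have ci := (pe_cont v w a b).inv₀ (pe_ne v w a b)
  have cX := pX_cont v w a b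
  have cL := pL_cont v w a b
  refine ⟨?_, ?_, ?_, ?_⟩
  · unfold pd
    rw [← em]
    refine sh_tot b (G := fun s => mE v (pl a s) / pe v w a b s)
      (F := fun s => mE v (pl a' s) / pe v w a' b' s) (pG_cont v w a b) (fun t ht => ?_)
      (first0 b (fun t _ ht => by simp [hpl t ht]) zero_le_one le_rfl) hm1
    rw [hpe t ht, ha', sh_pl a ht]
  · unfold pP
    rw [← em]
    refine sh_tot b (G := fun s => pX v w a b s * mE v (pl a s) / pe v w a b s)
      (F := fun s => pX v w a' b' s * mE v (pl a' s) / pe v w a' b' s)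
      ((cX.mul ((mE_cont v).comp (cont_pl a))).div (pe_cont v w a b) (pe_ne v w a b))
      (fun t ht => ?_)
      (first0 b (fun t _ ht => by simp [hpl t ht]) zero_le_one le_rfl) hm1
    rw [hpe t ht, hX t ht]
    have e := sh_pl a ht
    rw [← ha'] at e
    rw [e]
  · rw [pN_split v w a b (show r + 1 < m + 1 by omega), pN_split v w a' b' hrm, hJ]
    have k1 := sh_tot b (G := fun t => pL v w a b t * (pe v w a b t)⁻¹)
      (F := fun s => pL v w a' b' s * (pe v w a' b' s)⁻¹) (cL.mul ci)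
      (fun t ht => by rw [hpe t ht, hL t ht])
      (first0 b (fun t h2 h3 => by simp [hL0 t h2 h3]) zero_le_one le_rfl) hm1
    have k2 := sh_int b (G := fun t => (pe v w a b t)⁻¹) (F := fun s => (pe v w a' b' s)⁻¹)
      (fun t ht => by rw [hpe t ht]) hr1 hr2
    rw [em] at k1 k2
    rw [er] at k2
    rw [k1, k2]
  · rw [pM_split v w a b (show r + 1 < m + 1 by omega), pM_split v w a' b' hrm, hJ]
    have k1 := sh_tot b (G := fun t => pL v w a b t * (pX v w a b t * (pe v w a b t)⁻¹))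
      (F := fun s => pL v w a' b' s * (pX v w a' b' s * (pe v w a' b' s)⁻¹))
      (cL.mul (cX.mul ci))
      (fun t ht => by rw [hpe t ht, hL t ht, hX t ht])
      (first0 b (fun t h2 h3 => by simp [hL0 t h2 h3]) zero_le_one le_rfl) hm1
    have k2 := sh_int b (G := fun t => pX v w a b t * (pe v w a b t)⁻¹)
      (F := fun s => pX v w a' b' s * (pe v w a' b' s)⁻¹)
      (fun t ht => by rw [hpe t ht, hX t ht]) hr1 hr2
    rw [em] at k1 k2
    rw [er] at k2
    rw [k1, k2]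

end

end Pool.Agent.Work.MP_b5407d_pos_h19
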